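import Pool.Agent.H.MP_53e59f_lc.SF.Stm

/-!
# Words in which all letters but one are rare
-/

namespace Pool.Agent.SI

/-- There is a letter `d` such that every other letter occurs at most `k` times in every factor `a` of `u`
which is a permutation of a factor `b` of `v`. -/
def Rare {α : Type} [DecidableEq α] (k : ℕ) (u v : List α) : Prop :=
  ∃ d : α, ∀ a b : List α, a <:+: u → b <:+: v → a.Perm b → ∀ c, c ≠ d → a.count c ≤ k

end Pool.Agent.SI
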