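import Pool.Agent.H.MP_53e59f_lc.SF.Defs
import Pool.Agent.H.MP_53e59f_lc.SI.Defs

/-!
# The algorithm
-/

namespace Pool.Agent.SI

open Pool.Agent.SF
open Pool.Agent.H.MP_5be563_lc.PT

/-- The bound for the lengths of the lists, for `k` at most `c * log N` (`N` = the length of the
input). -/
def cap (c : ℕ) (d : Dat) : ℕ :=
  d.2.1.length * ((d.2.2.2.2.1.length + d.2.2.2.2.2.length + 1) *
    (d.1 * ((d.2.2.2.2.1.length + d.2.2.2.2.2.length + 1) * ((d.2.2.2.2.1.length + 1) *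
      (4 * (enc d).bits.length ^ (2 * c)))) + 2))

/-- The algorithm. -/
def dec (c : ℕ) (d : Dat) : Bool × Bool :=
  alg d.1 d.2.1 d.2.2.1 d.2.2.2.1 d.2.2.2.2.1 d.2.2.2.2.2 (cap c d)

end Pool.Agent.SI
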