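import Pool.Agent.H.MP_53e59f_lc.SI.Small

/-!
# The number of the sets of tokens
-/

namespace Pool.Agent.SI

open Pool.Agent.SF

/-- The tokens after one more letter `d`, at the level `K`. -/
def nx (u v : List ℕ) (d K : ℕ) (S : Set ℕ) : Set ℕ :=
  {p | (p ∈ S ∧ v[K - p]? = some d) ∨ (1 ≤ p ∧ p - 1 ∈ S ∧ u[p - 1]? = some d)}

theorem Rs_snoc (u v w : List ℕ) (d : ℕ) : Rs u v (w ++ [d]) = nx u v d w.length (Rs u v w) := by
  ext p
  exact Tk_snoc u v w d p

/-- The tokens after `j` more letters `d`, from the level `K`. -/
def it (u v : List ℕ) (d K : ℕ) : ℕ → Set ℕ → Set ℕ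
  | 0, S => S
  | j + 1, S => nx u v d (K + j) (it u v d K j S)

theorem Rs_rep (u v w : List ℕ) (d j : ℕ) :
    Rs u v (w ++ List.replicate j d) = it u v d w.length j (Rs u v w) := by
  induction j with
  | zero =>
    rw [List.replicate_zero, List.append_nil]
    rfl
  | succ j ih =>
    rw [List.replicate_succ', ← List.append_assoc, Rs_snoc, ih, List.length_append,
      List.length_replicate]
    rfl

theorem split (d : ℕ) (w : List ℕ) :
    (∃ j, w = [] ++ List.replicate j d) ∨
      ∃ j w' c, c ≠ d ∧ w = (w' ++ [c]) ++ List.replicate j d := by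
  induction w using List.reverseRecOn with
  | nil => exact Or.inl ⟨0, rfl⟩
  | append_singleton w a ih =>
    by_cases h : a = d
    · subst h
      rcases ih with ⟨j, rfl⟩ | ⟨j, w', c, hc, rfl⟩
      · refine Or.inl ⟨j + 1, ?_⟩
        rw [List.replicate_succ', List.append_assoc]
      · refine Or.inr ⟨j + 1, w', c, hc, ?_⟩
        rw [List.replicate_succ', List.append_assoc, List.append_assoc]
    · exact Or.inr ⟨0, w, a, h, by rw [List.replicate_zero, List.append_nil]⟩

/-- The codes. -/
abbrev Code (s L n k : ℕ) : Type :=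
  Fin s × Fin (L + 1) × Fin (n + 1) × Finset (Fin (k + 1)) × Finset (Fin (k + 1))

/-- The set with a given code at the level `K`. -/
def dc {s L n k : ℕ} (u v : List ℕ) (K : ℕ) : Option (Option (Code s L n k)) → Set ℕ
  | none => ∅
  | some none => {0}
  | some (some q) => dcd u v (K - 1) q.1 q.2.1 q.2.2.1 {i | ∃ j ∈ q.2.2.2.1, (j : ℕ) = i}
      {i | ∃ j ∈ q.2.2.2.2, (j : ℕ) = i}

theorem code {u v : List ℕ} {s k d : ℕ}
    (h : ∀ a b : List ℕ, a <:+: u → b <:+: v → a.Perm b → ∀ c, c ≠ d → a.count c ≤ k)
    (w : List ℕ) (hs : ∀ a ∈ w, a < s) :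
    ∃ (j : Fin (u.length + v.length + 1))
      (q : Option (Option (Code s (u.length + v.length) u.length k))),
      Rs u v w = it u v d (w.length - j) j (dc u v (w.length - j) q) := by
  classical
  by_cases hw : u.length + v.length < w.length
  · refine ⟨0, none, ?_⟩
    have h2 : Rs u v w = ∅ := by
      ext z
      simp only [Set.mem_empty_iff_false, iff_false]
      rintro ⟨h3, h4, h5, -⟩
      omega
    show Rs u v w = ∅
    exact h2
  · have key : ∀ (w₀ : List ℕ) (j : ℕ)
        (q : Option (Option (Code s (u.length + v.length) u.length k))),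
        w = w₀ ++ List.replicate j d → Rs u v w₀ = dc u v w₀.length q →
        ∃ (j : Fin (u.length + v.length + 1))
          (q : Option (Option (Code s (u.length + v.length) u.length k))),
          Rs u v w = it u v d (w.length - j) j (dc u v (w.length - j) q) := by
      intro w₀ j q e hq
      have hlen : w.length = w₀.length + j := by
        rw [e, List.length_append, List.length_replicate]
      refine ⟨⟨j, by omega⟩, q, ?_⟩
      show Rs u v w = it u v d (w.length - j) j (dc u v (w.length - j) q)
      have h2 : w.length - j = w₀.length := by omega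
      rw [h2, ← hq, e, Rs_rep]
    rcases split d w with ⟨j, e⟩ | ⟨j, w', c, hc, e⟩
    · refine key [] j (some none) e ?_
      ext z
      exact Tk_nil u v z
    · have hcs : c < s := by
        refine hs c ?_
        rw [e]
        simp
      have hn : w'.count c < u.length + v.length + 1 := by
        have h1 : w'.count c ≤ w'.length := List.count_le_length
        have h2 : w.length = w'.length + 1 + j := by
          rw [e, List.length_append, List.length_append, List.length_replicate]
          rfl
        omega
      obtain ⟨t, A, B, hq⟩ := dcd_eq (u := u) (v := v) (k := k) (c := c)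
        (fun a b ha hb hab => h a b ha hb hab c hc) w'
      refine key (w' ++ [c]) j (some (some (⟨c, hcs⟩, ⟨w'.count c, hn⟩, t, A, B))) e ?_
      rw [hq, List.length_append]
      rfl

/-- The bound for the number of the sets of tokens at every level. -/
def bnd (s L n k : ℕ) : ℕ := (L + 1) * (s * ((L + 1) * ((n + 1) * 4 ^ (k + 1))) + 2)

theorem count_Rs (s : ℕ) {u v : List ℕ} {k : ℕ} (h : Rare k u v) (K : ℕ) :
    {S : Set ℕ | ∃ w : List ℕ, w.length = K ∧ (∀ a ∈ w, a < s) ∧ S = Rs u v w}.Finite ∧
      {S : Set ℕ | ∃ w : List ℕ, w.length = K ∧ (∀ a ∈ w, a < s) ∧ S = Rs u v w}.ncard ≤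
        bnd s (u.length + v.length) u.length k := by
  classical
  obtain ⟨d, h⟩ := h
  let Φ : Fin (u.length + v.length + 1) ×
      Option (Option (Code s (u.length + v.length) u.length k)) → Set ℕ :=
    fun c => it u v d (K - c.1) c.1 (dc u v (K - c.1) c.2)
  have hsub : {S : Set ℕ | ∃ w : List ℕ, w.length = K ∧ (∀ a ∈ w, a < s) ∧ S = Rs u v w} ⊆
      Set.range Φ := by
    rintro S ⟨w, hw, hws, rfl⟩
    obtain ⟨j, q, e⟩ := code h w hws
    rw [hw] at e
    exact ⟨(j, q), e.symm⟩
  have hfin : (Set.range Φ).Finite := Set.finite_range Φ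
  refine ⟨hfin.subset hsub, ?_⟩
  calc _ ≤ (Set.range Φ).ncard := Set.ncard_le_ncard hsub hfin
    _ ≤ Nat.card (Fin (u.length + v.length + 1) ×
        Option (Option (Code s (u.length + v.length) u.length k))) := by
      rw [← Set.image_univ]
      refine (Set.ncard_image_le (Set.finite_univ)).trans ?_
      rw [Set.ncard_univ]
    _ = bnd s (u.length + v.length) u.length k := by
      unfold bnd
      rw [Nat.card_eq_fintype_card, Fintype.card_prod, Fintype.card_fin, Fintype.card_option,
        Fintype.card_option, Fintype.card_prod, Fintype.card_prod, Fintype.card_prod,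
        Fintype.card_prod, Fintype.card_finset, Fintype.card_fin, Fintype.card_fin,
        Fintype.card_fin, Fintype.card_fin, ← mul_pow]
      have e : (2 * 2 : ℕ) = 4 := rfl
      rw [e, Nat.add_assoc]

end Pool.Agent.SI
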