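import Pool.Agent.H.MP_53e59f_lc.SF.Mp
import Pool.Agent.H.MP_53e59f_lc.SI.Defs

/-!
# Images of the words
-/

namespace Pool.Agent.SI

private theorem Mp_factor {α β : Type} {f : α → β} {u : List α} {a : List β} (h : a <:+: u.map f) :
    ∃ a', a' <:+: u ∧ a = a'.map f := by
  obtain ⟨s, t, hst⟩ := h
  obtain ⟨l₁, l₂, rfl, h1, h2⟩ := List.map_eq_append_iff.1 hst.symm
  obtain ⟨l₃, l₄, rfl, h3, h4⟩ := List.map_eq_append_iff.1 h1
  exact ⟨l₄, ⟨l₃, l₂, rfl⟩, h4.symm⟩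

theorem Rare_map {α β : Type} [DecidableEq α] [DecidableEq β] {f : α → β}
    (hf : Function.Injective f) {k : ℕ} {u v : List α} (h : Rare k u v) :
    Rare k (u.map f) (v.map f) := by
  obtain ⟨d, h⟩ := h
  refine ⟨f d, ?_⟩
  intro a b ha hb hab c hc
  obtain ⟨a', ha', rfl⟩ := Mp_factor ha
  obtain ⟨b', hb', rfl⟩ := Mp_factor hb
  by_cases hca : c ∈ a'.map f
  · obtain ⟨c', -, rfl⟩ := List.mem_map.1 hca
    rw [List.count_map_of_injective _ f hf]
    exact h a' b' ha' hb' ((List.map_perm_map_iff hf).1 hab) c' (fun e => hc (by rw [e]))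
  · rw [List.count_eq_zero_of_not_mem hca]
    exact Nat.zero_le _

end Pool.Agent.SI
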