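import Pool.Agent.H.MP_53e59f_lc.SG.Swp
import Pool.Agent.H.MP_53e59f_lc.SF.CT
import Pool.Agent.H.MP_53e59f_lc.SI.Defs

/-!
# The tokens after a rare letter

The tokens after a letter `c` are determined by the number of the letters `c` and by the numbers of the
letters `c` in the corresponding beginnings of `u`; these numbers differ by at most `k`.
-/

namespace Pool.Agent.SI

open Pool.Agent.SF

variable {u v : List ℕ} {k c : ℕ}

theorem take_count_le (l : List ℕ) (c : ℕ) {x y : ℕ} (h : x ≤ y) :
    (l.take x).count c ≤ (l.take y).count c := by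
  have e : l.take x = (l.take y).take x := by
    rw [List.take_take, Nat.min_eq_left h]
  rw [e]
  exact (List.take_sublist _ _).count_le c

theorem tok_le (hR : ∀ a b : List ℕ, a <:+: u → b <:+: v → a.Perm b → a.count c ≤ k)
    {w : List ℕ} {x y : ℕ} (hx : Tk u v w x) (hy : Tk u v w y) :
    (u.take y).count c ≤ (u.take x).count c + k := by
  rcases Nat.le_total x y with h | h
  · have e : u.take y = u.take x ++ (u.take y).drop x := by
      have e1 : (u.take y).take x = u.take x := by
        rw [List.take_take, Nat.min_eq_left h]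
      rw [← e1, List.take_append_drop]
    have h1 : ((u.take y).drop x).count c ≤ k := by
      refine hR _ ((v.take (w.length - x)).drop (w.length - y)) ?_ ?_ (SG.perm_tokens hx hy h)
      · exact (List.drop_suffix _ _).isInfix.trans (List.take_prefix _ _).isInfix
      · exact (List.drop_suffix _ _).isInfix.trans (List.take_prefix _ _).isInfix
    have h2 : (u.take y).count c = (u.take x).count c + ((u.take y).drop x).count c := by
      conv_lhs => rw [e]
      rw [List.count_append]
    omega
  · have := take_count_le u c h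
    omega

/-- A letter `c` is determined by its number. -/
theorem pos_eq {l : List ℕ} {i j : ℕ} (hi : l[i]? = some c) (hj : l[j]? = some c)
    (h : (l.take i).count c = (l.take j).count c) : i = j := by
  have h1 := count_take_lt (l := l) (i := i) (j := i) (z := c) le_rfl hi
  have h2 := count_take_lt (l := l) (i := j) (j := j) (z := c) le_rfl hj
  rcases Nat.lt_trichotomy i j with h3 | h3 | h3
  · have h4 := take_count_le l c (show i + 1 ≤ j by omega)
    omega
  · exact h3
  · have h4 := take_count_le l c (show j + 1 ≤ i by omega)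
    omega

/-- The set with the code `(c, n, h, A, B)` at the level `K + 1`. -/
def dcd (u v : List ℕ) (K c n h : ℕ) (A B : Set ℕ) : Set ℕ :=
  {z | (1 ≤ z ∧ u[z - 1]? = some c ∧ ∃ i ∈ A, (u.take (z - 1)).count c = h + i) ∨
    (z ≤ K ∧ v[K - z]? = some c ∧ ∃ i ∈ B, (v.take (K - z)).count c + (h + i) = n)}

theorem dcd_eq (hR : ∀ a b : List ℕ, a <:+: u → b <:+: v → a.Perm b → a.count c ≤ k)
    (w : List ℕ) : ∃ (h : Fin (u.length + 1)) (A B : Finset (Fin (k + 1))),
      Rs u v (w ++ [c]) = dcd u v w.length c (w.count c) h {i | ∃ j ∈ A, (j : ℕ) = i}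
        {i | ∃ j ∈ B, (j : ℕ) = i} := by
  classical
  -- the predecessors are tokens of `w`; their numbers of letters `c` are within an interval of length `k`
  obtain ⟨h, hlt, hh⟩ : ∃ h, h < u.length + 1 ∧ ∀ x, Tk u v w x →
      (∃ i, i < k + 1 ∧ (u.take x).count c = h + i) := by
    by_cases hne : ∃ x, Tk u v w x
    · let Q : Set ℕ := {t | ∃ x, Tk u v w x ∧ (u.take x).count c = t}
      have hQ : Q.Nonempty := by
        obtain ⟨x, hx⟩ := hne
        exact ⟨_, x, hx, rfl⟩
      obtain ⟨x₀, hx₀, e₀⟩ : sInf Q ∈ Q := Nat.sInf_mem hQ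
      refine ⟨sInf Q, ?_, ?_⟩
      · rw [← e₀]
        have h1 : (u.take x₀).count c ≤ (u.take x₀).length := List.count_le_length
        have h2 : (u.take x₀).length ≤ u.length := by
          rw [List.length_take]
          exact Nat.min_le_right _ _
        omega
      · intro x hx
        have h1 : sInf Q ≤ (u.take x).count c := Nat.sInf_le ⟨x, hx, rfl⟩
        have h2 := tok_le hR hx₀ hx
        rw [e₀] at h2
        exact ⟨(u.take x).count c - sInf Q, by omega, by omega⟩
    · exact ⟨0, by omega, fun x hx => absurd ⟨x, hx⟩ hne⟩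
  refine ⟨⟨h, hlt⟩,
    Finset.univ.filter fun i : Fin (k + 1) => ∃ z, 1 ≤ z ∧ Tk u v w (z - 1) ∧
      u[z - 1]? = some c ∧ (u.take (z - 1)).count c = h + i,
    Finset.univ.filter fun i : Fin (k + 1) => ∃ z, Tk u v w z ∧ v[w.length - z]? = some c ∧
      (u.take z).count c = h + i, ?_⟩
  ext z
  constructor
  · intro hz
    rcases (Tk_snoc u v w c z).1 hz with ⟨h1, h2⟩ | ⟨h0, h1, h2⟩
    · right
      obtain ⟨i, hi, e⟩ := hh z h1
      refine ⟨h1.2.1, h2, i, ⟨⟨i, hi⟩, ?_, rfl⟩, ?_⟩
      · rw [Finset.mem_filter]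
        exact ⟨Finset.mem_univ _, z, h1, h2, e⟩
      · have := Tk_count h1 c
        show (v.take (w.length - z)).count c + (h + i) = w.count c
        omega
    · left
      obtain ⟨i, hi, e⟩ := hh (z - 1) h1
      refine ⟨h0, h2, i, ⟨⟨i, hi⟩, ?_, rfl⟩, e⟩
      rw [Finset.mem_filter]
      exact ⟨Finset.mem_univ _, z, h0, h1, h2, e⟩
  · rintro (⟨h0, h1, i, ⟨j, hj, rfl⟩, e⟩ | ⟨h0, h1, i, ⟨j, hj, rfl⟩, e⟩)
    · rw [Finset.mem_filter] at hj
      obtain ⟨-, z', h2, h3, h4, h5⟩ := hj
      have e' : (u.take (z - 1)).count c = h + j := e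
      have h6 : z - 1 = z' - 1 := pos_eq h1 h4 (by omega)
      have h7 : z = z' := by omega
      subst h7
      exact (Tk_snoc u v w c z).2 (Or.inr ⟨h0, h3, h4⟩)
    · rw [Finset.mem_filter] at hj
      obtain ⟨-, z', h2, h3, h4⟩ := hj
      have e' : (v.take (w.length - z)).count c + (h + j) = w.count c := e
      have h5 := Tk_count h2 c
      have h6 : w.length - z = w.length - z' := pos_eq h1 h3 (by omega)
      have h7 : z = z' := by
        have := h2.2.1
        omega
      subst h7
      exact (Tk_snoc u v w c z).2 (Or.inl ⟨h2, h3⟩)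

end Pool.Agent.SI
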